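import Pool.Agent.Q68.PM.Law

set_option autoImplicit false

/-!
# A law of large permanents for ergodic actions of `ℕ²`

Q1 is answered in the positive: for every ergodic measure-preserving action of `ℕ²` on a probability
space and every measurable `f` with `log f` essentially bounded, almost surely the permanental means
of the matrices `f^(n)(ω)` converge to the scaling mean of `f`.

Upper bound: the Brègman-Minc inequality, extended to matrices with entries in `[0, 1]` by random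
rounding.  Lower bound: Gurvits' capacity inequality.  Ergodic theory: near-optimal scaling functions
make `f` nearly doubly stochastic; the two sigma-algebras of invariant sets are independent.
-/

open MeasureTheory Filter Topology Real
open scoped ENNReal

namespace Pool.Agent.Results.MP_79d3d7_an.LargePermanents

variable {Ω : Type*}

/-- The commuting maps `T₁ = T^(1,0)` and `T₂ = T^(0,1)` generate an ergodic measure-preserving
action of the semigroup `ℕ²`. -/
structure IsErgodicAction [MeasurableSpace Ω] (P : Measure Ω) (T₁ T₂ : Ω → Ω) : Prop where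
  mp₁ : MeasurePreserving T₁ P P
  mp₂ : MeasurePreserving T₂ P P
  comm : ∀ ω, T₁ (T₂ ω) = T₂ (T₁ ω)
  erg : ∀ A : Set Ω, MeasurableSet A → T₁ ⁻¹' A = A → T₂ ⁻¹' A = A → P A = 0 ∨ P A = 1

/-- The matrix `f^(n)(ω)`. -/
def sample (T₁ T₂ : Ω → Ω) (f : Ω → ℝ) (n : ℕ) (ω : Ω) : Matrix (Fin n) (Fin n) ℝ :=
  fun i j => f (T₁^[i] (T₂^[j] ω))

/-- The permanental mean. -/
noncomputable def pmean {n : ℕ} (B : Matrix (Fin n) (Fin n) ℝ) : ℝ :=
  (B.permanent / n.factorial) ^ (1 / (n : ℝ))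

/-- The geometric mean. -/
noncomputable def gm [MeasurableSpace Ω] (P : Measure Ω) (φ : Ω → ℝ) : ℝ :=
  exp (∫ ω, log (φ ω) ∂P)

/-- `φ` is positive and `𝓑`-measurable with `log φ` integrable. -/
structure IsScaling (𝓑 : MeasurableSpace Ω) [MeasurableSpace Ω] (P : Measure Ω) (φ : Ω → ℝ) :
    Prop where
  meas : Measurable[𝓑] φ
  pos : ∀ ω, 0 < φ ω
  log_integrable : Integrable (fun ω => log (φ ω)) P

/-- The scaling mean of `f ≥ 0` with respect to two sub-sigma-algebras. -/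
noncomputable def smean (𝓐₁ 𝓐₂ : MeasurableSpace Ω) [MeasurableSpace Ω] (P : Measure Ω)
    (f : Ω → ℝ) : ℝ≥0∞ :=
  ⨅ (g₁ : Ω → ℝ) (g₂ : Ω → ℝ) (_ : IsScaling 𝓐₁ P g₁ ∧ IsScaling 𝓐₂ P g₂),
    (∫⁻ ω, ENNReal.ofReal (g₁ ω * f ω * g₂ ω) ∂P) / ENNReal.ofReal (gm P g₁ * gm P g₂)

theorem toInG {m : MeasurableSpace Ω} [MeasurableSpace Ω] {P : Measure Ω} {g : Ω → ℝ}
    (hg : IsScaling m P g) : Q68.PM.InG P m g := ⟨hg.meas, hg.pos, hg.log_integrable⟩

theorem ofInG {m : MeasurableSpace Ω} [MeasurableSpace Ω] {P : Measure Ω} {g : Ω → ℝ}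
    (hg : Q68.PM.InG P m g) : IsScaling m P g := ⟨hg.meas, hg.pos, hg.logi⟩

/-- **The law of large permanents.** `MeasurableSpace.invariants T` is the sigma-algebra of the
`T`-invariant measurable sets. -/
theorem result [MeasurableSpace Ω] (P : Measure Ω) [IsProbabilityMeasure P] (T₁ T₂ : Ω → Ω)
    (hT : IsErgodicAction P T₁ T₂) (f : Ω → ℝ) (hf : Measurable f) (hpos : ∀ᵐ ω ∂P, 0 < f ω)
    (hlog : MemLp (fun ω => log (f ω)) ∞ P) :
    smean (MeasurableSpace.invariants T₁) (MeasurableSpace.invariants T₂) P f ≠ ∞ ∧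
    ∀ᵐ ω ∂P, Tendsto (fun n : ℕ => pmean (sample T₁ T₂ f n ω)) atTop
      (𝓝 (smean (MeasurableSpace.invariants T₁) (MeasurableSpace.invariants T₂) P f).toReal) := by
  have h : Q68.PM.Act P T₁ T₂ := ⟨hT.mp₁, hT.mp₂, hT.comm, hT.erg⟩
  -- the bounded modification
  obtain ⟨M, hM⟩ : ∃ M : ℝ, ∀ᵐ ω ∂P, |log (f ω)| ≤ M := by
    refine ⟨(eLpNorm (fun ω => log (f ω)) ∞ P).toReal, ?_⟩
    have h1 : eLpNorm (fun ω => log (f ω)) ∞ P ≠ ∞ := hlog.2.ne
    rw [eLpNorm_exponent_top] at h1 ⊢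
    filter_upwards [ae_le_eLpNormEssSup (f := fun ω => log (f ω)) (μ := P)] with ω hω
    have h2 := ENNReal.toReal_mono h1 hω
    simpa using h2
  set c := exp (-M) with hc
  set C := exp M with hC
  have hc0 : 0 < c := exp_pos _
  set f' : Ω → ℝ := fun ω => max c (min (f ω) (max c C)) with hf'
  have hf'm : Measurable f' := by
    have hg : Measurable (fun t : ℝ => max c (min t (max c C))) := by fun_prop
    exact hg.comp hf
  have hf'1 : ∀ ω, c ≤ f' ω := fun ω => le_max_left _ _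
  have hf'2 : ∀ ω, f' ω ≤ max c C := fun ω => max_le (le_max_left _ _) (min_le_right _ _)
  have hff' : ∀ᵐ ω ∂P, f ω = f' ω := by
    filter_upwards [hpos, hM] with ω h1 h2
    have h3 := abs_le.1 h2
    have h4 : c ≤ f ω := by
      rw [hc, ← Real.le_log_iff_exp_le h1]
      exact h3.1
    have h5 : f ω ≤ C := by
      rw [hC, ← Real.log_le_iff_le_exp h1]
      exact h3.2
    simp only [hf']
    rw [min_eq_left (h5.trans (le_max_right _ _)), max_eq_right h4]
  set s := sInf (Q68.PM.vals P T₁ T₂ f') with hs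
  have hne := Q68.PM.vals_nonempty (P := P) (T₁ := T₁) (T₂ := T₂)
    (Q68.PM.bdd_int hf'm hf'1 hf'2)
  have hbdd := Q68.PM.vals_bdd (P := P) (T₁ := T₁) (T₂ := T₂) hc0 hf'1
  -- the value of the scaling mean
  have hlint : ∀ g₁ g₂ : Ω → ℝ, ∫⁻ ω, ENNReal.ofReal (g₁ ω * f ω * g₂ ω) ∂P =
      ∫⁻ ω, ENNReal.ofReal (g₁ ω * f' ω * g₂ ω) ∂P := by
    intro g₁ g₂
    apply lintegral_congr_ae
    filter_upwards [hff'] with ω h1
    rw [h1]
  have hval : ∀ g₁ g₂ : Ω → ℝ, IsScaling (MeasurableSpace.invariants T₁) P g₁ →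
      IsScaling (MeasurableSpace.invariants T₂) P g₂ →
      Integrable (fun ω => g₁ ω * f' ω * g₂ ω) P →
      (∫⁻ ω, ENNReal.ofReal (g₁ ω * f' ω * g₂ ω) ∂P) / ENNReal.ofReal (gm P g₁ * gm P g₂) =
        ENNReal.ofReal (exp (Q68.PM.vl P f' g₁ g₂)) := by
    intro g₁ g₂ hg1 hg2 hi
    have h0 : ∀ ω, 0 < g₁ ω * f' ω * g₂ ω := fun ω =>
      mul_pos (mul_pos (hg1.pos ω) (hc0.trans_le (hf'1 ω))) (hg2.pos ω)
    have hI : 0 < ∫ ω, g₁ ω * f' ω * g₂ ω ∂P := Q68.PM.int_pos hi h0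
    rw [← ofReal_integral_eq_lintegral_ofReal hi (Eventually.of_forall fun ω => (h0 ω).le),
      ← ENNReal.ofReal_div_of_pos (show 0 < gm P g₁ * gm P g₂ from mul_pos (exp_pos _) (exp_pos _))]
    congr 1
    unfold Q68.PM.vl gm
    rw [Real.exp_sub, Real.exp_sub, Real.exp_log hI, div_div]
  have hsm : smean (MeasurableSpace.invariants T₁) (MeasurableSpace.invariants T₂) P f =
      ENNReal.ofReal (exp s) := by
    apply le_antisymm
    · obtain ⟨v, -, hv1, hv2⟩ := exists_seq_tendsto_sInf hne hbdd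
      have h1 : Tendsto (fun n => ENNReal.ofReal (exp (v n))) atTop (𝓝 (ENNReal.ofReal (exp s))) :=
        ENNReal.tendsto_ofReal ((Real.continuous_exp.tendsto s).comp hv1)
      refine ge_of_tendsto' h1 fun n => ?_
      obtain ⟨g₁, g₂, hg1, hg2, hi, hv⟩ := hv2 n
      have hg1' := ofInG hg1
      have hg2' := ofInG hg2
      rw [← hv, ← hval g₁ g₂ hg1' hg2' hi, ← hlint]
      unfold smean
      exact iInf_le_of_le g₁ (iInf_le_of_le g₂ (iInf_le_of_le ⟨hg1', hg2'⟩ le_rfl))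
    · unfold smean
      refine le_iInf fun g₁ => le_iInf fun g₂ => le_iInf fun hg => ?_
      obtain ⟨hg1, hg2⟩ := hg
      rw [hlint]
      by_cases hi : Integrable (fun ω => g₁ ω * f' ω * g₂ ω) P
      · rw [hval g₁ g₂ hg1 hg2 hi]
        apply ENNReal.ofReal_le_ofReal
        apply Real.exp_le_exp.2
        exact csInf_le hbdd ⟨g₁, g₂, toInG hg1, toInG hg2, hi, rfl⟩
      · have h0 : ∀ ω, 0 ≤ g₁ ω * f' ω * g₂ ω := fun ω =>
          (mul_pos (mul_pos (hg1.pos ω) (hc0.trans_le (hf'1 ω))) (hg2.pos ω)).le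
        have hm : Measurable fun ω => g₁ ω * f' ω * g₂ ω :=
          ((Q68.PM.inv_meas hg1.meas).mul hf'm).mul (Q68.PM.inv_meas hg2.meas)
        have htop : ∫⁻ ω, ENNReal.ofReal (g₁ ω * f' ω * g₂ ω) ∂P = ∞ := by
          by_contra hc
          apply hi
          refine ⟨hm.aestronglyMeasurable, ?_⟩
          rw [hasFiniteIntegral_iff_ofReal (Eventually.of_forall h0)]
          exact lt_top_iff_ne_top.2 hc
        rw [htop, ENNReal.top_div_of_ne_top ENNReal.ofReal_ne_top]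
        exact le_top
  refine ⟨by rw [hsm]; exact ENNReal.ofReal_ne_top, ?_⟩
  rw [hsm, ENNReal.toReal_ofReal (exp_pos s).le]
  have hall : ∀ᵐ ω ∂P, ∀ i j : ℕ, f (T₁^[i] (T₂^[j] ω)) = f' (T₁^[i] (T₂^[j] ω)) := by
    rw [ae_all_iff]
    intro i
    rw [ae_all_iff]
    intro j
    exact ((hT.mp₁.iterate i).comp (hT.mp₂.iterate j)).quasiMeasurePreserving.ae hff'
  filter_upwards [Q68.PM.law h hf'm hc0 hf'1 hf'2, hall] with ω h1 h2
  have h3 : Tendsto (fun n : ℕ => exp (Q68.PM.LL T₁ T₂ f' n ω)) atTop (𝓝 (exp s)) :=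
    (Real.continuous_exp.tendsto s).comp h1
  refine h3.congr fun n => ?_
  have e : sample T₁ T₂ f n ω = Q68.PM.mat T₁ T₂ f' n ω := by
    funext i j
    exact h2 i j
  have hper : 0 < Q68.PM.per (Q68.PM.mat T₁ T₂ f' n ω) :=
    Q68.PM.per_pos fun i j => hc0.trans_le (hf'1 _)
  have hfac : (0:ℝ) < n.factorial := by exact_mod_cast n.factorial_pos
  unfold pmean
  rw [e, H450R3.Fg.per_eq]
  have e2 : (∑ σ : Equiv.Perm (Fin n), ∏ i, Q68.PM.mat T₁ T₂ f' n ω i (σ i)) =
      Q68.PM.per (Q68.PM.mat T₁ T₂ f' n ω) := rfl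
  rw [e2, Real.rpow_def_of_pos (div_pos hper hfac)]
  congr 1
  unfold Q68.PM.LL
  ring

end Pool.Agent.Results.MP_79d3d7_an.LargePermanents
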